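import Pool.Agent.Helper25.MC.Defs

/-!
# Project MC, part P : base facts on the planar map `F`
-/

set_option autoImplicit false

open Set Filter Topology Metric

namespace MC

theorem ball_norm {ζ : ℂ} (h : ζ ∈ ball (0 : ℂ) 1) : ‖ζ‖ < 1 := by simpa using h

theorem sum_geo_sq {r : ℝ} (h0 : 0 ≤ r) (h1 : r < 1) : Summable (fun k : ℕ => r ^ (2 * k)) := by
  have : (fun k : ℕ => r ^ (2 * k)) = fun k : ℕ => (r ^ 2) ^ k := by
    funext k; rw [pow_mul]
  rw [this]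
  exact summable_geometric_of_lt_one (by positivity) (by nlinarith)

theorem cast_ne (k : ℕ) : (2 * (k : ℂ) + 1) ≠ 0 := by
  have : ((2 * k + 1 : ℕ) : ℂ) ≠ 0 := Nat.cast_ne_zero.2 (by omega)
  push_cast at this
  exact this

theorem norm_cast (k : ℕ) : ‖(2 * (k : ℂ) + 1)‖ = 2 * (k : ℝ) + 1 := by
  have : (2 * (k : ℂ) + 1) = ((2 * k + 1 : ℕ) : ℂ) := by push_cast; ring
  rw [this, Complex.norm_natCast]
  push_cast; ring

theorem F_hasDerivAt {ζ : ℂ} (h : ζ ∈ ball (0 : ℂ) 1) : HasDerivAt F (dF ζ) ζ := by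
  have hn : ‖ζ‖ < 1 := ball_norm h
  obtain ⟨r, hr1, hr2⟩ := exists_between hn
  have hr0 : 0 < r := lt_of_le_of_lt (norm_nonneg _) hr1
  have key : HasDerivAt (fun z : ℂ => ∑' k : ℕ, z ^ (2 * k + 1) / ((2 * (k : ℂ) + 1) ^ 2))
      (∑' k : ℕ, ζ ^ (2 * k) / (2 * (k : ℂ) + 1)) ζ := by
    apply hasDerivAt_tsum_of_isPreconnected (u := fun k : ℕ => r ^ (2 * k)) (t := ball (0 : ℂ) r)
      (g := fun (k : ℕ) (z : ℂ) => z ^ (2 * k + 1) / ((2 * (k : ℂ) + 1) ^ 2))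
      (g' := fun (k : ℕ) (z : ℂ) => z ^ (2 * k) / (2 * (k : ℂ) + 1))
      (y₀ := 0) (y := ζ) (sum_geo_sq hr0.le hr2) isOpen_ball (convex_ball _ _).isPreconnected
    · intro k y _
      have h1 : HasDerivAt (fun z : ℂ => z ^ (2 * k + 1)) (((2 * k + 1 : ℕ) : ℂ) * y ^ (2 * k)) y := by
        simpa using hasDerivAt_pow (2 * k + 1) y
      have h2 := h1.div_const ((2 * (k : ℂ) + 1) ^ 2)
      refine h2.congr_deriv ?_
      have hk := cast_ne k
      push_cast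
      rw [sq, mul_div_mul_left _ _ hk]
    · intro k y hy
      have hy' : ‖y‖ < r := by simpa using hy
      rw [norm_div, norm_pow, norm_cast]
      have h1 : ‖y‖ ^ (2 * k) ≤ r ^ (2 * k) := pow_le_pow_left₀ (norm_nonneg _) hy'.le _
      have h2 : (1 : ℝ) ≤ 2 * (k : ℝ) + 1 := by
        have : (0 : ℝ) ≤ k := Nat.cast_nonneg k
        linarith
      calc ‖y‖ ^ (2 * k) / (2 * (k : ℝ) + 1) ≤ ‖y‖ ^ (2 * k) / 1 := by gcongr
        _ ≤ r ^ (2 * k) := by simpa using h1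
    · simpa using hr0
    · apply summable_of_ne_finset_zero (s := ∅)
      intro k _
      simp
    · simpa using hr1
  exact key.const_mul _

theorem F_analytic : AnalyticOnNhd ℂ F (ball 0 1) :=
  DifferentiableOn.analyticOnNhd
    (fun _ hz => (F_hasDerivAt hz).differentiableAt.differentiableWithinAt) isOpen_ball

theorem dF_analytic : AnalyticOnNhd ℂ dF (ball 0 1) := by
  have h := F_analytic.deriv
  refine h.congr isOpen_ball ?_
  intro z hz
  exact (F_hasDerivAt hz).deriv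

/-- `log (1+z) - log (1-z)` -/
noncomputable def LL (z : ℂ) : ℂ := Complex.log (1 + z) - Complex.log (1 - z)

theorem slit_add {z : ℂ} (h : ‖z‖ < 1) : 1 + z ∈ Complex.slitPlane := by
  left
  have := Complex.abs_re_le_norm z
  have := (abs_le.1 this).1
  simp
  linarith

theorem slit_sub {z : ℂ} (h : ‖z‖ < 1) : 1 - z ∈ Complex.slitPlane := by
  left
  have := Complex.abs_re_le_norm z
  have := (abs_le.1 this).2
  simp
  linarith

theorem LL_hasSum {z : ℂ} (h : ‖z‖ < 1) :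
    HasSum (fun k : ℕ => 2 * (z ^ (2 * k + 1) / (2 * (k : ℂ) + 1))) (LL z) := by
  have h1 := Complex.hasSum_taylorSeries_log h
  have h2 := Complex.hasSum_taylorSeries_neg_log h
  have h3 := h1.add h2
  have h4 : Complex.log (1 + z) + -Complex.log (1 - z) = LL z := by unfold LL; ring
  rw [h4] at h3
  have hinj : Function.Injective (fun k : ℕ => 2 * k + 1) := fun a b hab => by
    simp only at hab; omega
  rw [← hinj.hasSum_iff] at h3
  · convert h3 using 1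
    funext k
    simp only [Function.comp]
    have : (-1 : ℂ) ^ (2 * k + 1 + 1) = 1 := by
      rw [show 2 * k + 1 + 1 = 2 * (k + 1) by ring, pow_mul]; simp
    rw [this]
    push_cast
    ring
  · intro x hx
    have hev : Even x := by
      by_contra hodd
      rw [Nat.not_even_iff_odd] at hodd
      obtain ⟨j, hj⟩ := hodd
      exact hx ⟨j, hj.symm⟩
    have : (-1 : ℂ) ^ (x + 1) = -1 := by
      rw [pow_succ, hev.neg_one_pow]; ring
    rw [this]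
    ring

theorem mul_dF {ζ : ℂ} (h : ζ ∈ ball (0 : ℂ) 1) :
    ζ * dF ζ = (4 / (Real.pi : ℂ) ^ 2) * LL ζ := by
  have h1 := (LL_hasSum (ball_norm h)).tsum_eq
  rw [← h1, tsum_mul_left]
  unfold dF
  have h2 : ζ * (8 / (Real.pi : ℂ) ^ 2 * ∑' k : ℕ, ζ ^ (2 * k) / (2 * (k : ℂ) + 1)) =
      8 / (Real.pi : ℂ) ^ 2 * (ζ * ∑' k : ℕ, ζ ^ (2 * k) / (2 * (k : ℂ) + 1)) := by ring
  rw [h2, ← tsum_mul_left]
  have h3 : (fun k : ℕ => ζ * (ζ ^ (2 * k) / (2 * (k : ℂ) + 1))) =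
      fun k : ℕ => ζ ^ (2 * k + 1) / (2 * (k : ℂ) + 1) := by
    funext k; rw [pow_succ]; ring
  rw [h3]
  ring

theorem dF_zero : dF 0 = 8 / (Real.pi : ℂ) ^ 2 := by
  unfold dF
  rw [tsum_eq_single 0]
  · simp
  · intro k hk
    simp [hk]

theorem F_zero : F 0 = 0 := by
  unfold F
  simp

/-- `1/2 < Re (1/(1-u))` for `|u| < 1`. -/
theorem half_lt {u : ℂ} (h : ‖u‖ < 1) : 1 / 2 < ((1 - u)⁻¹).re := by
  have hne : 1 - u ≠ 0 := by
    intro h0
    have : u = 1 := by linear_combination -h0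
    rw [this] at h
    simp at h
  have hpos : 0 < Complex.normSq (1 - u) := Complex.normSq_pos.2 hne
  rw [Complex.inv_re, lt_div_iff₀ hpos]
  have h1 : Complex.normSq u < 1 := by
    rw [Complex.normSq_eq_norm_sq]
    nlinarith [norm_nonneg u]
  rw [Complex.normSq_apply] at h1 ⊢
  simp only [Complex.sub_re, Complex.one_re, Complex.sub_im, Complex.one_im]
  nlinarith

theorem re_dF {ζ : ℂ} (h : ζ ∈ ball (0 : ℂ) 1) : 4 / Real.pi ^ 2 < (dF ζ).re := by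
  have hn := ball_norm h
  have hpi : (0 : ℝ) < Real.pi ^ 2 := by positivity
  by_cases h0 : ζ = 0
  · rw [h0, dF_zero]
    have : (8 / (Real.pi : ℂ) ^ 2) = ((8 / Real.pi ^ 2 : ℝ) : ℂ) := by push_cast; ring
    rw [this, Complex.ofReal_re]
    gcongr
    norm_num
  · -- mean value theorem
    have hd : ∀ t ∈ Icc (0 : ℝ) 1, HasDerivAt (fun t : ℝ => (LL (t * ζ) / (2 * ζ)).re)
        (((1 - (t * ζ) ^ 2)⁻¹).re) t := by
      intro t ht
      have htn : ‖(t : ℂ) * ζ‖ < 1 := by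
        rw [norm_mul, Complex.norm_real, Real.norm_of_nonneg ht.1]
        calc t * ‖ζ‖ ≤ 1 * ‖ζ‖ := by gcongr; exact ht.2
          _ < 1 := by linarith
      have e1 : HasDerivAt (fun t : ℝ => (t : ℂ) * ζ) ζ t := by
        have := (Complex.ofRealCLM.hasDerivAt (x := t)).mul_const ζ
        simpa using this
      have e2 : HasDerivAt (fun t : ℝ => Complex.log (1 + (t : ℂ) * ζ)) (ζ / (1 + t * ζ)) t :=
        (e1.const_add 1).clog_real (slit_add htn)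
      have e3 : HasDerivAt (fun t : ℝ => Complex.log (1 - (t : ℂ) * ζ)) (-ζ / (1 - t * ζ)) t :=
        (e1.const_sub 1).clog_real (slit_sub htn)
      have e4 := (e2.sub e3).div_const (2 * ζ)
      have e5 : (ζ / (1 + t * ζ) - -ζ / (1 - t * ζ)) / (2 * ζ) = (1 - ((t : ℂ) * ζ) ^ 2)⁻¹ := by
        have n1 : 1 + (t : ℂ) * ζ ≠ 0 := Complex.slitPlane_ne_zero (slit_add htn)
        have n2 : 1 - (t : ℂ) * ζ ≠ 0 := Complex.slitPlane_ne_zero (slit_sub htn)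
        have n3 : 1 - ((t : ℂ) * ζ) ^ 2 ≠ 0 := by
          have : 1 - ((t : ℂ) * ζ) ^ 2 = (1 + t * ζ) * (1 - t * ζ) := by ring
          rw [this]; exact mul_ne_zero n1 n2
        have g : ∀ a b c z : ℂ, a ≠ 0 → b ≠ 0 → z ≠ 0 → c = a * b → a + b = 2 →
            (z / a - -z / b) / (2 * z) = c⁻¹ := by
          intro a b c z ha hb hz hc hab
          rw [hc]
          field_simp
          linear_combination hab
        exact g _ _ _ _ n1 n2 h0 (by ring) (by ring)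
      rw [e5] at e4
      exact (Complex.reCLM.hasFDerivAt.comp_hasDerivAt t e4)
    obtain ⟨c, hc, hc2⟩ := exists_hasDerivAt_eq_slope
      (fun t : ℝ => (LL (t * ζ) / (2 * ζ)).re) (fun t : ℝ => ((1 - ((t : ℂ) * ζ) ^ 2)⁻¹).re)
      (by norm_num : (0 : ℝ) < 1)
      (fun t ht => (hd t ht).continuousAt.continuousWithinAt)
      (fun t ht => hd t ⟨ht.1.le, ht.2.le⟩)
    have hcn : ‖((c : ℂ) * ζ) ^ 2‖ < 1 := by
      rw [norm_pow, norm_mul, Complex.norm_real, Real.norm_of_nonneg hc.1.le]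
      have : c * ‖ζ‖ < 1 := by
        calc c * ‖ζ‖ ≤ 1 * ‖ζ‖ := by gcongr; exact hc.2.le
          _ < 1 := by linarith
      have h2 : 0 ≤ c * ‖ζ‖ := mul_nonneg hc.1.le (norm_nonneg _)
      nlinarith
    have h3 := half_lt hcn
    rw [hc2] at h3
    have h4 : LL ((0 : ℝ) * ζ) = 0 := by simp [LL]
    rw [h4] at h3
    have h5 : dF ζ = (8 / (Real.pi : ℂ) ^ 2) * (LL ζ / (2 * ζ)) := by
      have := mul_dF h
      field_simp at this ⊢
      linear_combination 2 * this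
    have h6 : (8 / (Real.pi : ℂ) ^ 2) = ((8 / Real.pi ^ 2 : ℝ) : ℂ) := by push_cast; ring
    rw [h5, h6, Complex.re_ofReal_mul]
    simp at h3
    have h7 : (4 : ℝ) / Real.pi ^ 2 = 8 / Real.pi ^ 2 * (1 / 2) := by ring
    rw [h7]
    apply mul_lt_mul_of_pos_left _ (by positivity)
    simpa using h3

theorem dF_ne {ζ : ℂ} (h : ζ ∈ ball (0 : ℂ) 1) : dF ζ ≠ 0 := by
  intro h0
  have := re_dF h
  rw [h0, Complex.zero_re] at this
  have : (0 : ℝ) < 4 / Real.pi ^ 2 := by positivity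
  linarith

/-- `(4/π²) |b - a| ≤ |F b - F a|` -/
theorem F_lower {a b : ℂ} (ha : a ∈ ball (0 : ℂ) 1) (hb : b ∈ ball (0 : ℂ) 1) :
    4 / Real.pi ^ 2 * ‖b - a‖ ≤ ‖F b - F a‖ := by
  by_cases hab : b - a = 0
  · rw [hab]; simp
  have hpos : 0 < ‖b - a‖ := norm_pos_iff.2 hab
  have hseg : ∀ t ∈ Icc (0 : ℝ) 1, a + (t : ℂ) * (b - a) ∈ ball (0 : ℂ) 1 := by
    intro t ht
    have := (convex_ball (0 : ℂ) 1) ha hb (sub_nonneg.2 ht.2) ht.1 (by ring)
    convert this using 1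
    simp only [Complex.real_smul]
    push_cast
    ring
  have hd : ∀ t ∈ Icc (0 : ℝ) 1, HasDerivAt
      (fun t : ℝ => ((starRingEnd ℂ) (b - a) * F (a + (t : ℂ) * (b - a))).re)
      (((starRingEnd ℂ) (b - a) * (dF (a + (t : ℂ) * (b - a)) * (b - a))).re) t := by
    intro t ht
    have e1 : HasDerivAt (fun t : ℝ => a + (t : ℂ) * (b - a)) (b - a) t := by
      have := ((Complex.ofRealCLM.hasDerivAt (x := t)).mul_const (b - a)).const_add a
      simpa using this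
    have e2 := (F_hasDerivAt (hseg t ht)).comp t e1
    have e3 := e2.const_mul ((starRingEnd ℂ) (b - a))
    exact (Complex.reCLM.hasFDerivAt.comp_hasDerivAt t e3)
  obtain ⟨c, hc, hc2⟩ := exists_hasDerivAt_eq_slope
    (fun t : ℝ => ((starRingEnd ℂ) (b - a) * F (a + (t : ℂ) * (b - a))).re)
    (fun t : ℝ => ((starRingEnd ℂ) (b - a) * (dF (a + (t : ℂ) * (b - a)) * (b - a))).re)
    (by norm_num : (0 : ℝ) < 1)
    (fun t ht => (hd t ht).continuousAt.continuousWithinAt)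
    (fun t ht => hd t ⟨ht.1.le, ht.2.le⟩)
  have h1 : ((starRingEnd ℂ) (b - a) * (dF (a + (c : ℂ) * (b - a)) * (b - a))).re =
      ‖b - a‖ ^ 2 * (dF (a + (c : ℂ) * (b - a))).re := by
    have : (starRingEnd ℂ) (b - a) * (dF (a + (c : ℂ) * (b - a)) * (b - a)) =
        (((b - a) * (starRingEnd ℂ) (b - a))) * dF (a + (c : ℂ) * (b - a)) := by ring
    rw [this, Complex.mul_conj, Complex.re_ofReal_mul, Complex.normSq_eq_norm_sq]
  have h2 := re_dF (hseg c ⟨hc.1.le, hc.2.le⟩)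
  rw [h1] at hc2
  have h3 : (((starRingEnd ℂ) (b - a) * F (a + ((1 : ℝ) : ℂ) * (b - a))).re -
      ((starRingEnd ℂ) (b - a) * F (a + ((0 : ℝ) : ℂ) * (b - a))).re) / (1 - 0) =
      ((starRingEnd ℂ) (b - a) * (F b - F a)).re := by
    have e1 : a + ((1 : ℝ) : ℂ) * (b - a) = b := by push_cast; ring
    have e2 : a + ((0 : ℝ) : ℂ) * (b - a) = a := by push_cast; ring
    rw [e1, e2, mul_sub, Complex.sub_re]
    ring
  rw [h3] at hc2
  have h4 : ((starRingEnd ℂ) (b - a) * (F b - F a)).re ≤ ‖b - a‖ * ‖F b - F a‖ := by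
    refine (Complex.re_le_norm _).trans ?_
    rw [norm_mul, RCLike.norm_conj]
  rw [← hc2] at h4
  have h5 : ‖b - a‖ ^ 2 * (4 / Real.pi ^ 2) ≤ ‖b - a‖ * ‖F b - F a‖ :=
    le_trans (by gcongr) h4
  have h6 : ‖b - a‖ * (4 / Real.pi ^ 2 * ‖b - a‖) ≤ ‖b - a‖ * ‖F b - F a‖ := by
    calc ‖b - a‖ * (4 / Real.pi ^ 2 * ‖b - a‖) = ‖b - a‖ ^ 2 * (4 / Real.pi ^ 2) := by ring
      _ ≤ _ := h5
  exact le_of_mul_le_mul_left h6 hpos

theorem F_injOn : InjOn F (ball 0 1) := by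
  intro a ha b hb hab
  have := F_lower ha hb
  rw [hab, sub_self, norm_zero] at this
  have h2 : (0 : ℝ) < 4 / Real.pi ^ 2 := by positivity
  have h3 : ‖b - a‖ ≤ 0 := by
    by_contra hcon
    rw [not_le] at hcon
    have := mul_pos h2 hcon
    linarith
  have h4 := norm_le_zero_iff.1 h3
  linear_combination -h4

theorem Phi_mem {w : ℂ} (h : w ∈ E) : Phi w ∈ ball (0 : ℂ) 1 :=
  Function.invFunOn_mem h

theorem F_Phi {w : ℂ} (h : w ∈ E) : F (Phi w) = w :=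
  Function.invFunOn_eq h

theorem F_mem {ζ : ℂ} (h : ζ ∈ ball (0 : ℂ) 1) : F ζ ∈ E := ⟨ζ, h, rfl⟩

theorem Phi_F {ζ : ℂ} (h : ζ ∈ ball (0 : ℂ) 1) : Phi (F ζ) = ζ :=
  F_injOn (Phi_mem (F_mem h)) h (F_Phi (F_mem h))

theorem E_open : IsOpen E := by
  rw [isOpen_iff_mem_nhds]
  rintro w ⟨ζ, hζ, rfl⟩
  have h1 : HasStrictDerivAt F (dF ζ) ζ := by
    have h2 := (F_analytic ζ hζ).hasStrictDerivAt
    rwa [(F_hasDerivAt hζ).deriv] at h2
  rw [← h1.map_nhds_eq (dF_ne hζ)]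
  exact image_mem_map (isOpen_ball.mem_nhds hζ)

theorem Phi_lip {w w' : ℂ} (h : w ∈ E) (h' : w' ∈ E) :
    ‖Phi w - Phi w'‖ ≤ Real.pi ^ 2 / 4 * ‖w - w'‖ := by
  have := F_lower (Phi_mem h') (Phi_mem h)
  rw [F_Phi h, F_Phi h'] at this
  have h2 : (0 : ℝ) < Real.pi ^ 2 := by positivity
  calc ‖Phi w - Phi w'‖ = Real.pi ^ 2 / 4 * (4 / Real.pi ^ 2 * ‖Phi w - Phi w'‖) := by
        field_simp
    _ ≤ _ := by gcongr

theorem Phi_contOn : ContinuousOn Phi E := by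
  have : LipschitzOnWith (Real.toNNReal (Real.pi ^ 2 / 4)) Phi E := by
    apply LipschitzOnWith.of_dist_le_mul
    intro x hx y hy
    rw [dist_eq_norm, dist_eq_norm, Real.coe_toNNReal _ (by positivity)]
    exact Phi_lip hx hy
  exact this.continuousOn

theorem Phi_hasDerivAt {w : ℂ} (h : w ∈ E) : HasDerivAt Phi (dF (Phi w))⁻¹ w := by
  apply HasDerivAt.of_local_left_inverse (f := F)
  · exact Phi_contOn.continuousAt (E_open.mem_nhds h)
  · exact F_hasDerivAt (Phi_mem h)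
  · exact dF_ne (Phi_mem h)
  · filter_upwards [E_open.mem_nhds h] with y hy
    exact F_Phi hy

theorem Phi_analytic : AnalyticOnNhd ℂ Phi E :=
  DifferentiableOn.analyticOnNhd
    (fun _ hz => (Phi_hasDerivAt hz).differentiableAt.differentiableWithinAt) E_open

theorem odd_sum : HasSum (fun k : ℕ => 1 / (2 * (k : ℝ) + 1) ^ 2) (Real.pi ^ 2 / 8) := by
  have h1 := hasSum_zeta_two
  have h2 : HasSum (fun k : ℕ => 1 / ((2 * k : ℕ) : ℝ) ^ 2) (Real.pi ^ 2 / 24) := by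
    have h := h1.mul_left (1 / 4)
    have e1 : (fun k : ℕ => 1 / ((2 * k : ℕ) : ℝ) ^ 2) = fun i : ℕ => 1 / 4 * (1 / (i : ℝ) ^ 2) := by
      funext k
      push_cast
      rw [mul_pow, one_div, one_div, mul_inv]
      norm_num
    have e2 : Real.pi ^ 2 / 24 = 1 / 4 * (Real.pi ^ 2 / 6) := by ring
    rw [e1, e2]
    exact h
  have h3 : Summable (fun k : ℕ => 1 / ((2 * k + 1 : ℕ) : ℝ) ^ 2) :=
    h1.summable.comp_injective (i := fun k : ℕ => 2 * k + 1) (fun a b hab => by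
      simp only at hab; omega)
  have h4 := HasSum.even_add_odd (f := fun n : ℕ => 1 / (n : ℝ) ^ 2) h2 h3.hasSum
  have h5 := h4.unique h1
  have h6 : ∑' k : ℕ, 1 / ((2 * k + 1 : ℕ) : ℝ) ^ 2 = Real.pi ^ 2 / 8 := by linarith
  have h7 := h3.hasSum
  rw [h6] at h7
  convert h7 using 1
  funext k
  push_cast
  ring

theorem norm_F_le {ζ : ℂ} (h : ‖ζ‖ ≤ 1) : ‖F ζ‖ ≤ ‖ζ‖ := by
  unfold F
  rw [norm_mul]
  have h1 : ‖(8 / (Real.pi : ℂ) ^ 2)‖ = 8 / Real.pi ^ 2 := by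
    rw [norm_div, norm_pow, Complex.norm_real, Real.norm_of_nonneg Real.pi_pos.le]
    simp
  rw [h1]
  have h2 : ∀ k : ℕ, ‖ζ ^ (2 * k + 1) / ((2 * (k : ℂ) + 1) ^ 2)‖ ≤
      ‖ζ‖ * (1 / (2 * (k : ℝ) + 1) ^ 2) := by
    intro k
    rw [norm_div, norm_pow, norm_pow, norm_cast, mul_one_div]
    gcongr
    calc ‖ζ‖ ^ (2 * k + 1) ≤ ‖ζ‖ ^ 1 := pow_le_pow_of_le_one (norm_nonneg _) h (by omega)
      _ = ‖ζ‖ := pow_one _
  have h3 := tsum_of_norm_bounded (odd_sum.mul_left ‖ζ‖) h2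
  calc 8 / Real.pi ^ 2 * ‖∑' k : ℕ, ζ ^ (2 * k + 1) / ((2 * (k : ℂ) + 1) ^ 2)‖
      ≤ 8 / Real.pi ^ 2 * (‖ζ‖ * (Real.pi ^ 2 / 8)) := by gcongr
    _ = ‖ζ‖ := by
        have : (0 : ℝ) < Real.pi ^ 2 := by positivity
        field_simp

theorem E_sub_ball : E ⊆ ball (0 : ℂ) 1 := by
  rintro w ⟨ζ, hζ, rfl⟩
  have := norm_F_le (ball_norm hζ).le
  have h2 := ball_norm hζ
  simpa using lt_of_le_of_lt this h2

theorem norm_Phi_ge {w : ℂ} (h : w ∈ E) : ‖w‖ ≤ ‖Phi w‖ := by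
  have := norm_F_le (ball_norm (Phi_mem h)).le
  rwa [F_Phi h] at this

theorem zero_mem_E : (0 : ℂ) ∈ E := ⟨0, by simp, F_zero⟩

theorem Phi_zero : Phi 0 = 0 := by
  have := Phi_F (ζ := 0) (by simp)
  rwa [F_zero] at this

theorem c8 : (starRingEnd ℂ) 8 = 8 := map_ofNat _ 8

theorem c2 : (starRingEnd ℂ) 2 = 2 := map_ofNat _ 2

theorem F_conj (ζ : ℂ) : F ((starRingEnd ℂ) ζ) = (starRingEnd ℂ) (F ζ) := by
  unfold F
  rw [map_mul, Complex.conj_tsum]
  simp [map_div₀, c8, c2]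

theorem dF_conj (ζ : ℂ) : dF ((starRingEnd ℂ) ζ) = (starRingEnd ℂ) (dF ζ) := by
  unfold dF
  rw [map_mul, Complex.conj_tsum]
  simp [map_div₀, c8, c2]

theorem conj_ball {ζ : ℂ} (h : ζ ∈ ball (0 : ℂ) 1) : (starRingEnd ℂ) ζ ∈ ball (0 : ℂ) 1 := by
  simpa using h

theorem E_conj {w : ℂ} (h : w ∈ E) : (starRingEnd ℂ) w ∈ E := by
  obtain ⟨ζ, hζ, rfl⟩ := h
  exact ⟨_, conj_ball hζ, F_conj ζ⟩

theorem Phi_conj {w : ℂ} (h : w ∈ E) : Phi ((starRingEnd ℂ) w) = (starRingEnd ℂ) (Phi w) := by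
  have h1 : F ((starRingEnd ℂ) (Phi w)) = (starRingEnd ℂ) w := by rw [F_conj, F_Phi h]
  rw [← h1, Phi_F (conj_ball (Phi_mem h))]

theorem F_neg (ζ : ℂ) : F (-ζ) = -F ζ := by
  unfold F
  have h : (fun k : ℕ => (-ζ) ^ (2 * k + 1) / ((2 * (k : ℂ) + 1) ^ 2)) =
      fun k : ℕ => -(ζ ^ (2 * k + 1) / ((2 * (k : ℂ) + 1) ^ 2)) := by
    funext k
    rw [Odd.neg_pow ⟨k, rfl⟩]
    ring
  rw [h, tsum_neg]
  ring

/-- the compact set `F(|ζ| ≤ ρ)` -/
theorem K_compact {ρ : ℝ} (h : ρ < 1) : IsCompact (F '' closedBall 0 ρ) := by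
  apply (isCompact_closedBall _ _).image_of_continuousOn
  intro z hz
  have : z ∈ ball (0 : ℂ) 1 := by
    simp at hz ⊢; linarith
  exact (F_hasDerivAt this).continuousAt.continuousWithinAt

theorem K_sub {ρ : ℝ} (h : ρ < 1) : F '' closedBall 0 ρ ⊆ E := by
  rintro w ⟨z, hz, rfl⟩
  apply F_mem
  simp at hz ⊢; linarith

theorem mem_K {ρ : ℝ} (h : ρ < 1) {w : ℂ} (hw : w ∈ E) :
    w ∈ F '' closedBall 0 ρ ↔ ‖Phi w‖ ≤ ρ := by
  constructor
  · rintro ⟨z, hz, rfl⟩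
    have : z ∈ ball (0 : ℂ) 1 := by
      simp at hz ⊢; linarith
    rw [Phi_F this]
    simpa using hz
  · intro h1
    exact ⟨Phi w, by simpa using h1, F_Phi hw⟩

theorem arg_arctan {z : ℂ} (h : 0 < z.re) : z.arg = Real.arctan (z.im / z.re) := by
  have h1 : |z.arg| < Real.pi / 2 := Complex.abs_arg_lt_pi_div_two_iff.2 (Or.inl h)
  rw [← Complex.tan_arg, Real.arctan_tan (by linarith [(abs_lt.1 h1).1]) (abs_lt.1 h1).2]

theorem LL_im {z : ℂ} (h : ‖z‖ < 1) :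
    (LL z).im = Real.arctan (2 * z.im / (1 - ‖z‖ ^ 2)) := by
  have hre := abs_le.1 (Complex.abs_re_le_norm z)
  have h1 : 0 < 1 + z.re := by linarith [hre.1]
  have h2 : 0 < 1 - z.re := by linarith [hre.2]
  have h3 : ‖z‖ ^ 2 = z.re ^ 2 + z.im ^ 2 := by
    rw [← Complex.normSq_eq_norm_sq, Complex.normSq_apply]; ring
  have h4 : 0 < 1 - ‖z‖ ^ 2 := by nlinarith [norm_nonneg z]
  unfold LL
  rw [Complex.sub_im, Complex.log_im, Complex.log_im, arg_arctan (by simpa using h1),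
    arg_arctan (by simpa using h2)]
  simp only [Complex.add_re, Complex.one_re, Complex.add_im, Complex.one_im, Complex.sub_re,
    Complex.sub_im, zero_add, zero_sub]
  have h5 : -z.im / (1 - z.re) = -(z.im / (1 - z.re)) := by ring
  have h6 : z.im / (1 + z.re) * (z.im / (1 - z.re)) < 1 := by
    rw [div_mul_div_comm, div_lt_one (by positivity)]
    rw [h3] at h4
    nlinarith
  rw [h5, Real.arctan_neg, sub_neg_eq_add, Real.arctan_add h6]
  congr 1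
  rw [h3] at h4
  have h7 : (1 : ℝ) - z.im / (1 + z.re) * (z.im / (1 - z.re)) =
      (1 - ‖z‖ ^ 2) / ((1 + z.re) * (1 - z.re)) := by
    rw [h3]
    field_simp
    ring
  rw [h7, h3]
  have h8 : 1 - (z.re ^ 2 + z.im ^ 2) ≠ 0 := h4.ne'
  field_simp
  ring

theorem im_mul_dF {ζ : ℂ} (h : ζ ∈ ball (0 : ℂ) 1) :
    (ζ * dF ζ).im = 4 / Real.pi ^ 2 * Real.arctan (2 * ζ.im / (1 - ‖ζ‖ ^ 2)) := by
  rw [mul_dF h, ← LL_im (ball_norm h)]
  have : (4 / (Real.pi : ℂ) ^ 2) = ((4 / Real.pi ^ 2 : ℝ) : ℂ) := by push_cast; ring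
  rw [this, Complex.im_ofReal_mul]

end MC
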